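import Mathlib
import Pool.Agent.H352.Win.Tuple

set_option autoImplicit false

namespace Pool.Agent.Results.MP_c8ecb2_nt.DigitMatrices

/-- Let `α_1, …, α_n` be real algebraic numbers such that `1, α_1, …, α_n` satisfy no nontrivial
rational linear relation, `b ≥ 2`, and let `a_{k,i} = ⌊α_k b^i⌋ mod b` be the `i`-th base-`b` digit of
`α_k`.  Fix `H, D, E, K, C` and `ε > 0`.  For all large `m` the following holds for all distinct places
`t_1, …, t_D ≤ C m` and all nonzero real vectors `lam` (length `D`) and `c` (length `n`) one of which is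
an integer vector with entries of absolute value at most `H`: the word
`i ↦ ∑_j ∑_k lam_j c_k a_{k, t_j + i}`, `1 ≤ i ≤ m` (a combination of the rows of the digit matrices
`D_{t_1 + 1}, …, D_{t_D + 1}`) does not agree outside `K` places with a sum of `E` periodic sequences
whose periods add up to at most `(1 - ε) m / (K + 1)`. -/
theorem result (b n : ℕ) (hb : 2 ≤ b) (α : Fin n → ℝ) (halg : ∀ k, IsAlgebraic ℚ (α k))
    (hind : ∀ (q0 : ℚ) (q : Fin n → ℚ), (q0 : ℝ) + ∑ k, (q k : ℝ) * α k = 0 → q0 = 0 ∧ q = 0)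
    (H D E K C : ℕ) (ε : ℝ) (hε : 0 < ε) :
    ∃ M : ℕ, ∀ m : ℕ, M ≤ m → ∀ t : Fin D → ℕ, Function.Injective t → (∀ j, t j ≤ C * m) →
      ∀ (lam : Fin D → ℝ) (c : Fin n → ℝ), lam ≠ 0 → c ≠ 0 →
      ((∀ j, ∃ z : ℤ, |z| ≤ H ∧ lam j = z) ∨ (∀ k, ∃ z : ℤ, |z| ≤ H ∧ c k = z)) →
      ∀ p : Fin E → ℕ, (∀ l, 0 < p l) → ((∑ l, p l : ℕ) : ℝ) ≤ (1 - ε) * m / (K + 1) →
      ∀ f : Fin E → ℕ → ℝ, (∀ l i, f l (i + p l) = f l i) →
      K < ((Finset.range m).filter
        (fun i => ∑ j, ∑ k, lam j * c k *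
          ((⌊α k * (b : ℝ) ^ (t j + i + 1)⌋ % (b : ℤ) : ℤ) : ℝ) ≠ ∑ l, f l i)).card :=
  Pool.Agent.H352.Win.rankone b hb n α halg (fun q0 q h => (hind q0 q h).2) H D E K C ε hε

end Pool.Agent.Results.MP_c8ecb2_nt.DigitMatrices
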