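import Pool.Agent.H726R3.Tup6

/-!
# Digit matrices of linearly independent tuples of real algebraic numbers

`digit b x i = ⌊x b^i⌋ mod b`; `cnt b d x N` is the number of `1 ≤ i ≤ N` with
`digit b x i ≠ d`; `colcnt b e α N` is the number of `1 ≤ i ≤ N` such that the column
`(digit b (α k) i)_k` is different from the column `e`; `occ b M α N` is the number of
`1 ≤ i ≤ N` such that the digit matrix at `i` is `M` (this is `A_b(M, N, ξ)`).
-/

set_option autoImplicit false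

open Finset Filter IntermediateField Module

namespace Pool.Agent.Results.MP_c8ecb2_nt.IndependentTuples

open Pool.Agent.H726R3.Joint Pool.Agent.H726R3.Tup

theorem result :
    -- (1) digit matrices of linearly independent tuples
    (∀ b : ℕ, 2 ≤ b → ∀ n : ℕ, 1 ≤ n → ∀ α : Fin n → ℝ, (∀ k, IsAlgebraic ℚ (α k)) →
      LinearIndependent ℚ (Fin.cons 1 α : Fin (n + 1) → ℝ) →
      ∀ (m : ℕ) (M : Fin n → Fin m → ℤ) (t : Fin m), (∀ k, M k t = 0 ∨ M k t = b - 1) →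
        ∃ c : ℝ, 0 < c ∧ ∀ᶠ N : ℕ in atTop,
          c * N ≤ ((N : ℝ) - occ b M α N) ^
            (finrank ℚ (adjoin ℚ (Set.range α)) - n + 1)) ∧
    -- (2) with an arbitrary irrational element `θ` of the field
    (∀ b : ℕ, 2 ≤ b → ∀ n : ℕ, 1 ≤ n → ∀ α : Fin n → ℝ, (∀ k, IsAlgebraic ℚ (α k)) →
      LinearIndependent ℚ (Fin.cons 1 α : Fin (n + 1) → ℝ) →
      ∀ e : Fin n → ℤ, (∀ k, e k = 0 ∨ e k = b - 1) →
      ∀ θ ∈ adjoin ℚ (Set.range α), Irrational θ → ∀ d : ℤ, (d = 0 ∨ d = b - 1) →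
        ∃ c : ℝ, 0 < c ∧ ∀ᶠ N : ℕ in atTop,
          c * N ≤ (cnt b d θ N : ℝ) * (colcnt b e α N : ℝ) ^
            (finrank ℚ (adjoin ℚ (Set.range α)) - n)) ∧
    -- (3) tuples whose products of length at most `m` span a number field `L`
    (∀ b : ℕ, 2 ≤ b → ∀ L : IntermediateField ℚ ℝ, FiniteDimensional ℚ L →
      ∀ n : ℕ, 1 ≤ n → ∀ α : Fin n → ℝ, (∀ k, Irrational (α k)) → (∀ k, α k ∈ L) →
      ∀ m : ℕ, 1 ≤ m → (∀ v ∈ L, v ∈ (Submodule.span ℚ (insert 1 (Set.range α))) ^ m) →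
      ∀ e : Fin n → ℤ, (∀ k, e k = 0 ∨ e k = b - 1) →
      (∃ c : ℝ, 0 < c ∧ ∀ᶠ N : ℕ in atTop, c * N ≤ (colcnt b e α N : ℝ) ^ (m + 1)) ∧
      (∀ θ ∈ L, Irrational θ → ∀ d : ℤ, (d = 0 ∨ d = b - 1) →
        ∃ c : ℝ, 0 < c ∧ ∀ᶠ N : ℕ in atTop,
          c * N ≤ (cnt b d θ N : ℝ) * (colcnt b e α N : ℝ) ^ m)) := by
  refine ⟨?_, ?_, ?_⟩
  · intro b hb n hn α halg hli m M t hM
    exact occ_of_col M t (by omega) (independent hb hn halg hli hM).1
  · intro b hb n hn α halg hli e he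
    exact (independent hb hn halg hli he).2
  · intro b hb L hL n hn α hα hαL m hm hspan e he
    have : Nonempty (Fin n) := ⟨⟨0, hn⟩⟩
    exact ⟨tuple_col_self hb L hα hαL hm hspan he,
      fun θ hθ hirr d hd => tuple_col hb L hα hαL hm hspan hθ hirr hd he⟩

end Pool.Agent.Results.MP_c8ecb2_nt.IndependentTuples
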